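import Pool.Agent.Helper15.FC.St1

set_option autoImplicit false

/-!
# Project FC, module DAT
-/

namespace Pool.Agent.Helper64.FC

open Pool.Agent.Helper15.FC Polynomial

theorem hDAT (hRED : StRED) (hLIN : StLIN) : StDAT := by
  intro L _ b q XX y hq hS
  obtain ⟨I, D, C, hD, hI, hV⟩ := hLIN L (Fin b → Fin q) (ymon y) (fun e => ∑ t, (e t : ℕ))
  have hV' : ∀ (j : ℕ) (u : PowerSeries L), u ∈ Vj y j → ∃ G : (Fin b → Fin q) → L[X],
      (∀ e, (G e).natDegree ≤ j + C) ∧ (D : PowerSeries L) * u =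
        ∑ e ∈ I, (G e : PowerSeries L) * ymon y e :=
    fun j u hu => hV j u (hRED L b q XX y hq hS j u hu)
  refine ⟨I, D, C, hD, ?_, hI, hV'⟩
  rw [Finset.nonempty_iff_ne_empty]
  rintro rfl
  have h1 : (1 : PowerSeries L) ∈ Vj y 0 := by
    refine ⟨1, ?_, map_one (ev y)⟩
    change (1 : MvPolynomial (Option (Fin b)) L) ∈
      MvPolynomial.restrictTotalDegree (Option (Fin b)) L 0
    rw [MvPolynomial.mem_restrictTotalDegree, MvPolynomial.totalDegree_one]
  obtain ⟨G, -, hG⟩ := hV' 0 1 h1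
  rw [Finset.sum_empty, mul_one] at hG
  exact hD (Polynomial.coe_eq_zero_iff.1 hG)

end Pool.Agent.Helper64.FC
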