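import Pool.Agent.Helper15.FC.St5

set_option autoImplicit false

/-!
# Project FC, module DVM
-/

namespace Pool.Agent.Helper64.FC

open Pool.Agent.Helper15.FC Polynomial

theorem hDVM : StDVM := by
  classical
  intro F _ _
  refine ⟨fun r s g hr hs hrs => ?_, fun P a g hP hirr => ?_⟩
  · have hrs0 : r * s ≠ 0 := (hr.mul hs).ne_zero
    rw [← Finset.sum_product' (Dv r) (Dv s) (fun a b => g (a * b))]
    symm
    refine Finset.sum_bij (fun (p : F[X] × F[X]) _ => p.1 * p.2) ?_ ?_ ?_ ?_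
    · rintro ⟨a, b⟩ hab
      rw [Finset.mem_product, mem_Dv hr.ne_zero, mem_Dv hs.ne_zero] at hab
      rw [mem_Dv hrs0]
      exact ⟨hab.1.1.mul hab.2.1, mul_dvd_mul hab.1.2 hab.2.2⟩
    · rintro ⟨a, b⟩ hab ⟨a', b'⟩ hab' h
      rw [Finset.mem_product, mem_Dv hr.ne_zero, mem_Dv hs.ne_zero] at hab hab'
      obtain ⟨⟨ha, hadvd⟩, ⟨hb, hbdvd⟩⟩ := hab
      obtain ⟨⟨ha', hadvd'⟩, ⟨hb', hbdvd'⟩⟩ := hab'
      simp only at ha hadvd hb hbdvd ha' hadvd' hb' hbdvd' h
      have h1 : a ∣ a' := by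
        have hc : IsCoprime a b' := (hrs.of_isCoprime_of_dvd_left hadvd).of_isCoprime_of_dvd_right
          hbdvd'
        exact hc.dvd_of_dvd_mul_right (h ▸ dvd_mul_right a b)
      have h2 : a' ∣ a := by
        have hc : IsCoprime a' b := (hrs.of_isCoprime_of_dvd_left hadvd').of_isCoprime_of_dvd_right
          hbdvd
        exact hc.dvd_of_dvd_mul_right (h ▸ dvd_mul_right a' b')
      have h3 : a = a' := eq_of_monic_of_associated ha ha' (associated_of_dvd_dvd h1 h2)
      subst h3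
      have h4 : b = b' := mul_left_cancel₀ ha.ne_zero h
      rw [h4]
    · intro e he
      rw [mem_Dv hrs0] at he
      obtain ⟨hem, hed⟩ := he
      obtain ⟨d₁, d₂, hd₁, hd₂, hd⟩ := exists_dvd_and_dvd_of_dvd_mul hed
      have hd0 : d₁ ≠ 0 ∧ d₂ ≠ 0 := by
        constructor
        · rintro rfl
          exact hem.ne_zero (by rw [hd, zero_mul])
        · rintro rfl
          exact hem.ne_zero (by rw [hd, mul_zero])
      refine ⟨(normalize d₁, normalize d₂), ?_, ?_⟩
      · rw [Finset.mem_product, mem_Dv hr.ne_zero, mem_Dv hs.ne_zero]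
        exact ⟨⟨monic_normalize hd0.1, (normalize_dvd_iff).2 hd₁⟩,
          ⟨monic_normalize hd0.2, (normalize_dvd_iff).2 hd₂⟩⟩
      · change normalize d₁ * normalize d₂ = e
        rw [← normalize_mul, ← hd, hem.normalize_eq_self]
    · rintro ⟨a, b⟩ _
      rfl
  · have hset : Dv (P ^ a) = (Finset.range (a + 1)).image (fun i => P ^ i) := by
      ext d
      rw [mem_Dv (hP.pow a).ne_zero, Finset.mem_image]
      constructor
      · rintro ⟨hd, hdvd⟩
        obtain ⟨i, hi, hass⟩ := (dvd_prime_pow hirr.prime a).1 hdvd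
        exact ⟨i, Finset.mem_range.2 (Nat.lt_succ_of_le hi),
          (eq_of_monic_of_associated hd (hP.pow i) hass).symm⟩
      · rintro ⟨i, hi, rfl⟩
        exact ⟨hP.pow i, pow_dvd_pow P (Nat.lt_succ_iff.1 (Finset.mem_range.1 hi))⟩
    rw [hset, Finset.sum_image]
    intro i _ j _ hij
    have h1 := congrArg natDegree hij
    simp only [natDegree_pow] at h1
    exact Nat.eq_of_mul_eq_mul_right hirr.natDegree_pos h1

end Pool.Agent.Helper64.FC
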