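import Pool.Agent.Helper15.FC.St4

set_option autoImplicit false

/-!
# Project FC, module WS1
-/

namespace Pool.Agent.Helper64.FC

open Pool.Agent.Helper15.FC Polynomial

private theorem rev_lin {F : Type} [Field F] (x : F) : (X - C x : F[X]).reverse = 1 - C x * X := by
  have h : (X - C x : F[X]) = X + C (-x) := by rw [C_neg, sub_eq_add_neg]
  rw [h, reverse_add_C, natDegree_X, pow_one, C_neg]
  have h2 : (X : F[X]).reverse = 1 := by
    have := reverse_mul_X (1 : F[X])
    rw [one_mul] at this
    rw [this, ← C_1, reverse_C]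
  rw [h2]
  ring

theorem hWS1 (hWRH : StWRH) : StWS1 := by
  classical
  intro F _ _ r N χ ξ hr h
  have h1 := hWRH F r N χ ξ hr h 1 le_rfl
  rw [pow_one] at h1
  have h2 : Psi (Hk r N χ ξ) 1 = ∑ x : F, χ (AdjoinRoot.mk r (X - C x)) *
      ξ (AdjoinRoot.mk (X ^ (N + 1) : F[X]) (1 - C x * X)) := by
    unfold Psi
    rw [Nat.divisors_one, Finset.sum_singleton]
    simp only [Nat.cast_one, one_mul, Nat.div_self Nat.one_pos, pow_one]
    symm
    refine Finset.sum_bij (fun x _ => X - C x) ?_ ?_ ?_ ?_
    · intro x _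
      unfold Ir
      rw [Finset.mem_filter, mem_Mn]
      exact ⟨⟨monic_X_sub_C x, natDegree_X_sub_C x⟩, irreducible_X_sub_C x⟩
    · intro x _ y _ hxy
      have : C x = C y := sub_right_injective hxy
      exact C_injective this
    · intro f hf
      unfold Ir at hf
      rw [Finset.mem_filter, mem_Mn] at hf
      obtain ⟨⟨hm, hd⟩, -⟩ := hf
      refine ⟨- f.coeff 0, Finset.mem_univ _, ?_⟩
      have := hm.eq_X_add_C hd
      rw [C_neg, sub_neg_eq_add]
      exact this.symm
    · intro x _
      unfold Hk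
      rw [rev_lin]
  rw [h2] at h1
  exact h1

end Pool.Agent.Helper64.FC
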